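import Pool.Agent.Helper83.CB.Defs4

open Filter Topology MeasureTheory

namespace Pool.Agent.Helper83.CB

section bia

variable {ι : Type} [Fintype ι] [DecidableEq ι]

/-- three-forms with real coefficients -/
noncomputable def bia_W (Λ : Ext ι) (T : ι → ι → ι → ℝ) : Λ.X →L[ℝ] Λ.X :=
  ∑ l, ∑ m, ∑ k, T l m k • (Λ.e l * (Λ.e m * Λ.e k))

theorem bia_W_add (Λ : Ext ι) (S T : ι → ι → ι → ℝ) :
    bia_W Λ (fun l m k => S l m k + T l m k) = bia_W Λ S + bia_W Λ T := by
  simp only [bia_W, add_smul, Finset.sum_add_distrib]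

theorem bia_W_neg (Λ : Ext ι) (T : ι → ι → ι → ℝ) :
    bia_W Λ (fun l m k => -T l m k) = -bia_W Λ T := by
  simp only [bia_W, neg_smul, Finset.sum_neg_distrib]

theorem bia_W_swap12 (Λ : Ext ι) (T : ι → ι → ι → ℝ) :
    bia_W Λ (fun l m k => T m l k) = -bia_W Λ T := by
  unfold bia_W
  rw [Finset.sum_comm, ← Finset.sum_neg_distrib]
  refine Finset.sum_congr rfl fun m _ => ?_
  rw [← Finset.sum_neg_distrib]
  refine Finset.sum_congr rfl fun l _ => ?_
  rw [← Finset.sum_neg_distrib]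
  refine Finset.sum_congr rfl fun k _ => ?_
  rw [← mul_assoc, Λ.ee l m, neg_mul, smul_neg, mul_assoc]

theorem bia_W_swap23 (Λ : Ext ι) (T : ι → ι → ι → ℝ) :
    bia_W Λ (fun l m k => T l k m) = -bia_W Λ T := by
  unfold bia_W
  rw [← Finset.sum_neg_distrib]
  refine Finset.sum_congr rfl fun l _ => ?_
  rw [Finset.sum_comm, ← Finset.sum_neg_distrib]
  refine Finset.sum_congr rfl fun m _ => ?_
  rw [← Finset.sum_neg_distrib]
  refine Finset.sum_congr rfl fun k _ => ?_
  rw [Λ.ee k m, mul_neg, smul_neg]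

theorem bia_W_cyc (Λ : Ext ι) (T : ι → ι → ι → ℝ) :
    bia_W Λ (fun l m k => T m k l) = bia_W Λ T := by
  have h1 := bia_W_swap12 Λ (fun l m k => T l k m)
  have h2 := bia_W_swap23 Λ T
  rw [h1, h2, neg_neg]

theorem bia_W_cyc' (Λ : Ext ι) (T : ι → ι → ι → ℝ) :
    bia_W Λ (fun l m k => T k l m) = bia_W Λ T := by
  have h1 := bia_W_cyc Λ (fun l m k => T k l m)
  exact h1.symm

theorem bia_W_odd (Λ : Ext ι) (T : ι → ι → ι → ℝ) :
    bia_W Λ (fun l m k => T k m l) = -bia_W Λ T := by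
  have h1 := bia_W_swap12 Λ (fun l m k => T k l m)
  have h2 := bia_W_cyc' Λ T
  rw [h1, h2]

theorem bia_W_two (Λ : Ext ι) (φ : ι → ι → ι → ℝ) :
    ∑ l, Λ.e l * Λ.two (φ l) = (1 / 2 : ℝ) • bia_W Λ φ := by
  unfold bia_W Ext.two
  rw [Finset.smul_sum]
  refine Finset.sum_congr rfl fun l _ => ?_
  rw [mul_smul_comm, Finset.mul_sum]
  congr 1
  refine Finset.sum_congr rfl fun m _ => ?_
  rw [Finset.mul_sum]
  refine Finset.sum_congr rfl fun k _ => ?_
  rw [mul_smul_comm]

/-- algebraic Bianchi identity -/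
theorem bia_alg (Λ : Ext ι) {n : ℕ} (c : M n →ₗ[ℝ] ℝ) (A : ι → M n) (B : ι → ι → M n)
    (H : ι → ι → ι → M n) (hH : ∀ l m k, H l m k = H m l k) :
    bia_W Λ (fun l m k => c (H l m k - H l k m +
      (B l m * A k + A m * B l k - (B l k * A m + A k * B l m)))) =
    -bia_W Λ (fun l m k => c (A l * (B m k - B k m + (A m * A k - A k * A m)) -
      (B m k - B k m + (A m * A k - A k * A m)) * A l)) := by
  have e1 : ∀ l m k, c (H l m k - H l k m +
      (B l m * A k + A m * B l k - (B l k * A m + A k * B l m))) =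
      ((((c (H l m k) + -c (H l k m)) + c (B l m * A k)) + c (A m * B l k)) +
        -c (B l k * A m)) + -c (A k * B l m) := by
    intro l m k
    simp only [map_add, map_sub]
    ring
  have e2 : ∀ l m k, c (A l * (B m k - B k m + (A m * A k - A k * A m)) -
      (B m k - B k m + (A m * A k - A k * A m)) * A l) =
      (((((((c (A l * B m k) + -c (A l * B k m)) + c (A l * A m * A k)) +
        -c (A l * A k * A m)) + -c (B m k * A l)) + c (B k m * A l)) +
        -c (A m * A k * A l)) + c (A k * A m * A l)) := by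
    intro l m k
    simp only [mul_add, mul_sub, add_mul, sub_mul, map_add, map_sub, ← mul_assoc]
    ring
  simp only [e1, e2]
  rw [bia_W_add, bia_W_add, bia_W_add, bia_W_add, bia_W_add, bia_W_add, bia_W_add, bia_W_add,
    bia_W_add, bia_W_add, bia_W_add, bia_W_add]
  simp only [bia_W_neg]
  have s1 := bia_W_swap12 Λ (fun l m k => c (H l m k))
  have s1' : bia_W Λ (fun l m k => c (H m l k)) = bia_W Λ (fun l m k => c (H l m k)) := by
    congr 1
    funext l m k
    rw [hH]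
  have s2 := bia_W_swap23 Λ (fun l m k => c (H l m k))
  have p2 := bia_W_swap23 Λ (fun l m k => c (B l m * A k))
  have p3 := bia_W_cyc Λ (fun l m k => c (B l m * A k))
  have p4 := bia_W_odd Λ (fun l m k => c (B l m * A k))
  have q2 := bia_W_swap12 Λ (fun l m k => c (A l * B m k))
  have q3 := bia_W_cyc' Λ (fun l m k => c (A l * B m k))
  have q4 := bia_W_swap23 Λ (fun l m k => c (A l * B m k))
  have r2 := bia_W_swap23 Λ (fun l m k => c (A l * A m * A k))
  have r3 := bia_W_cyc Λ (fun l m k => c (A l * A m * A k))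
  have r4 := bia_W_odd Λ (fun l m k => c (A l * A m * A k))
  have p5 : bia_W Λ (fun l m k => c (B k m * A l)) = -bia_W Λ (fun l m k => c (B l m * A k)) := p4
  simp only [s2, p2, p3, p5, q2, q3, q4, r2, r3, r4]
  have s0 : bia_W Λ (fun l m k => c (H l m k)) = 0 := by
    rw [s1'] at s1
    have : (2 : ℝ) • bia_W Λ (fun l m k => c (H l m k)) = 0 := by
      rw [two_smul]
      nth_rewrite 1 [s1]
      abel
    simpa using this
  rw [s0]
  abel

/-- derivation associated with a family of functions -/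
noncomputable def bia_D (Λ : Ext ι) (ω : (ι → ℝ) → (Λ.X →L[ℝ] Λ.X)) (x : ι → ℝ) :
    Λ.X →L[ℝ] Λ.X := ∑ μ, Λ.e μ * pd ω x μ

theorem bia_pd_mul {A : Type*} [NormedRing A] [NormedAlgebra ℝ A] {f g : (ι → ℝ) → A}
    {x : ι → ℝ} (hf : DifferentiableAt ℝ f x) (hg : DifferentiableAt ℝ g x) (μ : ι) :
    pd (fun y => f y * g y) x μ = f x * pd g x μ + pd f x μ * g x := by
  unfold pd
  have h := (hf.hasFDerivAt.mul' hg.hasFDerivAt).fderiv
  have h' : fderiv ℝ (fun y => f y * g y) x = _ := h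
  rw [h']
  simp

theorem bia_pd_add {A : Type*} [NormedAddCommGroup A] [NormedSpace ℝ A] {f g : (ι → ℝ) → A}
    {x : ι → ℝ} (hf : DifferentiableAt ℝ f x) (hg : DifferentiableAt ℝ g x) (μ : ι) :
    pd (fun y => f y + g y) x μ = pd f x μ + pd g x μ := by
  unfold pd
  rw [fderiv_fun_add hf hg]
  rfl

theorem bia_pd_sub {A : Type*} [NormedAddCommGroup A] [NormedSpace ℝ A] {f g : (ι → ℝ) → A}
    {x : ι → ℝ} (hf : DifferentiableAt ℝ f x) (hg : DifferentiableAt ℝ g x) (μ : ι) :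
    pd (fun y => f y - g y) x μ = pd f x μ - pd g x μ := by
  unfold pd
  rw [fderiv_fun_sub hf hg]
  rfl

theorem bia_pd_comm {A : Type*} [NormedRing A] [NormedAlgebra ℝ A] {f : (ι → ℝ) → A}
    {x : ι → ℝ} (hf : DifferentiableAt ℝ f x) (b : A) (hb : ∀ y, b * f y = f y * b) (μ : ι) :
    b * pd f x μ = pd f x μ * b := by
  have h1 := bia_pd_mul (differentiableAt_const (x := x) b) hf μ
  have h2 := bia_pd_mul hf (differentiableAt_const (x := x) b) μ
  have h3 : (fun y => b * f y) = fun y => f y * b := funext hb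
  have h4 : pd (fun _ : ι → ℝ => b) x μ = 0 := by
    unfold pd
    simp
  rw [h4] at h1 h2
  rw [h3, h2] at h1
  simpa using h1.symm

theorem bia_evc_C (hEV : ST_EV) {q : ℕ} {A : Type} [Ring A] [Algebra ℝ A] (f : Fin q → A)
    (hf : ∀ i j, f i * f j = f j * f i) (r : ℝ) : evc f (MvPolynomial.C r) = algebraMap ℝ A r := by
  obtain ⟨Φ, h1, -, -⟩ := hEV q A f hf
  rw [← h1, MvPolynomial.algHom_C]

theorem bia_evc_add (hEV : ST_EV) {q : ℕ} {A : Type} [Ring A] [Algebra ℝ A] (f : Fin q → A)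
    (hf : ∀ i j, f i * f j = f j * f i) (P Q : MvPolynomial (Fin q) ℝ) :
    evc f (P + Q) = evc f P + evc f Q := by
  obtain ⟨Φ, h1, -, -⟩ := hEV q A f hf
  rw [← h1, ← h1, ← h1, map_add]

theorem bia_evc_mul (hEV : ST_EV) {q : ℕ} {A : Type} [Ring A] [Algebra ℝ A] (f : Fin q → A)
    (hf : ∀ i j, f i * f j = f j * f i) (P Q : MvPolynomial (Fin q) ℝ) :
    evc f (P * Q) = evc f P * evc f Q := by
  obtain ⟨Φ, h1, -, -⟩ := hEV q A f hf
  rw [← h1, ← h1, ← h1, map_mul]

theorem bia_evc_X (hEV : ST_EV) {q : ℕ} {A : Type} [Ring A] [Algebra ℝ A] (f : Fin q → A)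
    (hf : ∀ i j, f i * f j = f j * f i) (i : Fin q) :
    evc f (MvPolynomial.X i) = f i := by
  obtain ⟨Φ, h1, h2, -⟩ := hEV q A f hf
  rw [← h1, h2]

theorem bia_evc_sum (hEV : ST_EV) {q : ℕ} {A : Type} [Ring A] [Algebra ℝ A] (f : Fin q → A)
    (hf : ∀ i j, f i * f j = f j * f i) {κ : Type*} (s : Finset κ)
    (P : κ → MvPolynomial (Fin q) ℝ) :
    evc f (∑ a ∈ s, P a) = ∑ a ∈ s, evc f (P a) := by
  obtain ⟨Φ, h1, -, -⟩ := hEV q A f hf
  simp only [← h1, map_sum]

theorem bia_evc_ev (hEV : ST_EV) (Λ : Ext ι) {q : ℕ} (f : Fin q → (Λ.X →L[ℝ] Λ.X))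
    (hf : ∀ i j, f i * f j = f j * f i) (he : ∀ i, f i ∈ Λ.ev) (P : MvPolynomial (Fin q) ℝ) :
    evc f P ∈ Λ.ev := by
  obtain ⟨Φ, h1, -, h3⟩ := hEV q (Λ.X →L[ℝ] Λ.X) f hf
  have : Algebra.adjoin ℝ (Set.range f) ≤ Λ.ev := by
    refine Algebra.adjoin_le ?_
    rintro _ ⟨i, rfl⟩
    exact he i
  exact this (h3 P)

/-- the chain rule for polynomials in even forms -/
theorem bia_chain (hEV : ST_EV) (hEVEN : ST_EVEN) (Λ : Ext ι) {q : ℕ}
    (F : Fin q → (ι → ℝ) → (Λ.X →L[ℝ] Λ.X)) (he : ∀ a y, F a y ∈ Λ.ev)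
    (hF : ∀ a, ContDiff ℝ (⊤ : ℕ∞) (F a)) (P : MvPolynomial (Fin q) ℝ) :
    ContDiff ℝ (⊤ : ℕ∞) (fun y => evc (fun a => F a y) P) ∧
    ∀ x, bia_D Λ (fun y => evc (fun a => F a y) P) x =
      ∑ a, evc (fun a => F a x) (MvPolynomial.pderiv a P) * bia_D Λ (F a) x := by
  obtain ⟨E1, E2, -⟩ := hEVEN ι Λ
  have hc : ∀ y i j, F i y * F j y = F j y * F i y := fun y i j => E2 _ (he i y) _ (he j y)
  induction P using MvPolynomial.induction_on with
  | C r =>
    have h1 : (fun y => evc (fun a => F a y) (MvPolynomial.C r)) =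
        fun _ => algebraMap ℝ (Λ.X →L[ℝ] Λ.X) r :=
      funext fun y => bia_evc_C hEV _ (hc y) r
    rw [h1]
    refine ⟨contDiff_const, fun x => ?_⟩
    have h2 : ∀ a, evc (fun a => F a x) (MvPolynomial.pderiv a (MvPolynomial.C r)) = 0 := by
      intro a
      rw [MvPolynomial.pderiv_C, ← MvPolynomial.C_0, bia_evc_C hEV _ (hc x), map_zero]
    simp only [h2, zero_mul, Finset.sum_const_zero]
    unfold bia_D pd
    simp
  | add P Q hP hQ =>
    have h1 : (fun y => evc (fun a => F a y) (P + Q)) =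
        fun y => evc (fun a => F a y) P + evc (fun a => F a y) Q :=
      funext fun y => bia_evc_add hEV _ (hc y) P Q
    rw [h1]
    refine ⟨hP.1.add hQ.1, fun x => ?_⟩
    have h2 : bia_D Λ (fun y => evc (fun a => F a y) P + evc (fun a => F a y) Q) x =
        bia_D Λ (fun y => evc (fun a => F a y) P) x +
        bia_D Λ (fun y => evc (fun a => F a y) Q) x := by
      unfold bia_D
      rw [← Finset.sum_add_distrib]
      refine Finset.sum_congr rfl fun μ _ => ?_
      rw [bia_pd_add (hP.1.differentiable (by simp) x) (hQ.1.differentiable (by simp) x), mul_add]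
    rw [h2, hP.2, hQ.2, ← Finset.sum_add_distrib]
    refine Finset.sum_congr rfl fun a _ => ?_
    rw [map_add, bia_evc_add hEV _ (hc x), add_mul]
  | mul_X P i hP =>
    have h1 : (fun y => evc (fun a => F a y) (P * MvPolynomial.X i)) =
        fun y => evc (fun a => F a y) P * F i y :=
      funext fun y => by rw [bia_evc_mul hEV _ (hc y), bia_evc_X hEV _ (hc y)]
    rw [h1]
    refine ⟨hP.1.mul (hF i), fun x => ?_⟩
    have hd : DifferentiableAt ℝ (F i) x := (hF i).differentiable (by simp) x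
    have hPe : ∀ y, evc (fun a => F a y) P ∈ Λ.ev := fun y =>
      bia_evc_ev hEV Λ _ (hc y) (fun a => he a y) P
    have h2 : bia_D Λ (fun y => evc (fun a => F a y) P * F i y) x =
        evc (fun a => F a x) P * bia_D Λ (F i) x +
        bia_D Λ (fun y => evc (fun a => F a y) P) x * F i x := by
      unfold bia_D
      rw [Finset.mul_sum, Finset.sum_mul, ← Finset.sum_add_distrib]
      refine Finset.sum_congr rfl fun μ _ => ?_
      rw [bia_pd_mul (hP.1.differentiable (by simp) x) hd, mul_add, ← mul_assoc, ← mul_assoc,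
        ← mul_assoc, E1 _ (hPe x)]
    have h3 : ∀ a, bia_D Λ (F a) x * F i x = F i x * bia_D Λ (F a) x := by
      intro a
      unfold bia_D
      rw [Finset.mul_sum, Finset.sum_mul]
      refine Finset.sum_congr rfl fun μ _ => ?_
      have hda : DifferentiableAt ℝ (F a) x := (hF a).differentiable (by simp) x
      rw [mul_assoc, ← bia_pd_comm hda (F i x) (fun y => E2 _ (he i x) _ (he a y)), ← mul_assoc,
        ← mul_assoc, E1 _ (he i x)]
    rw [h2, hP.2, Finset.sum_mul]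
    have h4 : ∀ a, evc (fun a => F a x) (MvPolynomial.pderiv a (P * MvPolynomial.X i)) =
        evc (fun a => F a x) (MvPolynomial.pderiv a P) * F i x +
        evc (fun a => F a x) P * (if a = i then 1 else 0) := by
      intro a
      rw [MvPolynomial.pderiv_mul, bia_evc_add hEV _ (hc x), bia_evc_mul hEV _ (hc x),
        bia_evc_mul hEV _ (hc x), bia_evc_X hEV _ (hc x), MvPolynomial.pderiv_X]
      congr 2
      by_cases h : a = i
      · subst h
        rw [Pi.single_eq_same, if_pos rfl, ← MvPolynomial.C_1, bia_evc_C hEV _ (hc x), map_one]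
      · rw [Pi.single_eq_of_ne (Ne.symm h), if_neg h, ← MvPolynomial.C_0,
          bia_evc_C hEV _ (hc x), map_zero]
    simp only [h4, add_mul, Finset.sum_add_distrib]
    have h5 : ∑ a, evc (fun a => F a x) P * (if a = i then 1 else 0) * bia_D Λ (F a) x =
        evc (fun a => F a x) P * bia_D Λ (F i) x := by
      rw [Finset.sum_eq_single i]
      · simp
      · intro b _ hb
        simp [hb]
      · simp
    rw [h5, add_comm]
    congr 1
    refine Finset.sum_congr rfl fun a _ => ?_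
    rw [mul_assoc, h3, mul_assoc]

/-- chain rule for the evaluation of a real polynomial along a curve -/
theorem bia_eval_deriv {q : ℕ} (g : ℝ → Fin q → ℝ) (g' : Fin q → ℝ) (t : ℝ)
    (hg : ∀ a, HasDerivAt (fun s => g s a) (g' a) t) (P : MvPolynomial (Fin q) ℝ) :
    HasDerivAt (fun s => MvPolynomial.eval (g s) P)
      (∑ a, MvPolynomial.eval (g t) (MvPolynomial.pderiv a P) * g' a) t := by
  induction P using MvPolynomial.induction_on with
  | C r =>
    simp only [MvPolynomial.eval_C, MvPolynomial.pderiv_C, map_zero, zero_mul,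
      Finset.sum_const_zero]
    exact hasDerivAt_const t r
  | add P Q hP hQ =>
    simp only [map_add, add_mul, Finset.sum_add_distrib]
    exact hP.add hQ
  | mul_X P i hP =>
    have h := hP.mul (hg i)
    simp only [MvPolynomial.eval_mul, MvPolynomial.eval_X]
    refine h.congr_deriv ?_
    have h4 : ∀ a, MvPolynomial.eval (g t) (MvPolynomial.pderiv a (P * MvPolynomial.X i)) * g' a =
        MvPolynomial.eval (g t) (MvPolynomial.pderiv a P) * g' a * g t i +
        (if a = i then MvPolynomial.eval (g t) P * g' a else 0) := by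
      intro a
      rw [MvPolynomial.pderiv_mul, MvPolynomial.pderiv_X, map_add, map_mul, map_mul,
        MvPolynomial.eval_X]
      by_cases h : a = i
      · subst h
        rw [Pi.single_eq_same, if_pos rfl, map_one]
        ring
      · rw [Pi.single_eq_of_ne (Ne.symm h), if_neg h, map_zero]
        ring
    simp only [h4, Finset.sum_add_distrib, Finset.sum_ite_eq', Finset.mem_univ, if_true,
      Finset.sum_mul]

/-- infinitesimal invariance -/
theorem bia_inf {n q : ℕ} (f : Submodule ℝ (M n)) (c : Fin q → (M n →ₗ[ℝ] ℝ))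
    (P : MvPolynomial (Fin q) ℝ) (hP : InvL f c P) (X : M n) (hX : X ∈ f) (Y : M n) (hY : Y ∈ f) :
    ∑ a, MvPolynomial.eval (fun a => c a Y) (MvPolynomial.pderiv a P) *
      c a (X * Y - Y * X) = 0 := by
  have hz : (0 : ℝ) • X = 0 := zero_smul ℝ X
  have hx : HasDerivAt (fun t : ℝ => NormedSpace.exp (t • X)) X 0 := by
    have h := hasDerivAt_exp_smul_const (𝕂 := ℝ) X (0 : ℝ)
    simpa using h
  have hx' : HasDerivAt (fun t : ℝ => NormedSpace.exp (-(t • X))) (-X) 0 := by
    have h := hasDerivAt_exp_smul_const (𝕂 := ℝ) (-X) (0 : ℝ)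
    simpa using h
  have h1 : HasDerivAt (fun t : ℝ => NormedSpace.exp (t • X) * Y * NormedSpace.exp (-(t • X)))
      (X * Y - Y * X) 0 := by
    have h := (hx.mul_const Y).mul hx'
    refine h.congr_deriv ?_
    have hn : Y * -X = -(Y * X) := mul_neg Y X
    rw [hz, neg_zero, NormedSpace.exp_zero, mul_one, one_mul, hn, sub_eq_add_neg]
  have h2 : ∀ a, HasDerivAt (fun t : ℝ => c a (NormedSpace.exp (t • X) * Y *
      NormedSpace.exp (-(t • X)))) (c a (X * Y - Y * X)) 0 := by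
    intro a
    have := (LinearMap.toContinuousLinearMap (c a)).hasFDerivAt.comp_hasDerivAt (0 : ℝ) h1
    exact this
  have h3 := bia_eval_deriv (fun t a => c a (NormedSpace.exp (t • X) * Y *
      NormedSpace.exp (-(t • X)))) (fun a => c a (X * Y - Y * X)) 0 h2 P
  have h4 : (fun t : ℝ => MvPolynomial.eval (fun a => c a (NormedSpace.exp (t • X) * Y *
      NormedSpace.exp (-(t • X)))) P) = fun _ => MvPolynomial.eval (fun a => c a Y) P := by
    funext t
    exact hP (t • X) (f.smul_mem t hX) Y hY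
  rw [h4] at h3
  have h5 := h3.unique (hasDerivAt_const (0 : ℝ) _)
  rw [hz, neg_zero, NormedSpace.exp_zero, mul_one, one_mul] at h5
  exact h5

/-- infinitesimal invariance on forms -/
theorem bia_form (hEV : ST_EV) (hEVEN : ST_EVEN) (hEQP : ST_EQP) (Λ : Ext ι) {n q : ℕ}
    (f : Submodule ℝ (M n)) (c : Fin q → (M n →ₗ[ℝ] ℝ))
    (P : MvPolynomial (Fin q) ℝ) (hP : InvL f c P) (X : M n) (hX : X ∈ f)
    (F : ι → ι → M n) (hF : ∀ μ ν, F μ ν ∈ f) :
    ∑ a, PF Λ c (MvPolynomial.pderiv a P) F *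
      Λ.two (fun μ ν => c a (X * F μ ν - F μ ν * X)) = 0 := by
  obtain ⟨E1, E2, E3⟩ := hEVEN ι Λ
  let br : M n →ₗ[ℝ] M n := LinearMap.mulLeft ℝ X - LinearMap.mulRight ℝ X
  let c' : Fin (q + q) → (M n →ₗ[ℝ] ℝ) := Fin.addCases c (fun a => (c a).comp br)
  have hc1 : ∀ a Y, c' (Fin.castAdd q a) Y = c a Y := fun a Y => by
    simp only [c', Fin.addCases_left]
  have hc2 : ∀ a Y, c' (Fin.natAdd q a) Y = c a (X * Y - Y * X) := fun a Y => by
    simp only [c', Fin.addCases_right, br]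
    rfl
  let P' : MvPolynomial (Fin (q + q)) ℝ :=
    ∑ a, MvPolynomial.rename (Fin.castAdd q) (MvPolynomial.pderiv a P) *
      MvPolynomial.X (Fin.natAdd q a)
  have h0 : PF Λ c' P' F = PF Λ c' 0 F := by
    refine hEQP ι Λ n _ _ c' c' P' 0 f ?_ F hF
    intro Y hY
    simp only [P', map_sum, map_mul, MvPolynomial.eval_X, MvPolynomial.eval_rename, map_zero, hc2]
    have : (fun a => c' a Y) ∘ Fin.castAdd q = fun a => c a Y := funext fun a => hc1 a Y
    rw [this]
    exact bia_inf f c P hP X hX Y hY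
  have hcm : ∀ i j, (fun a => Λ.two fun μ ν => c' a (F μ ν)) i *
      (fun a => Λ.two fun μ ν => c' a (F μ ν)) j =
      (fun a => Λ.two fun μ ν => c' a (F μ ν)) j * (fun a => Λ.two fun μ ν => c' a (F μ ν)) i :=
    fun i j => E2 _ (E3 _) _ (E3 _)
  have hcm1 : ∀ i j, (fun a => Λ.two fun μ ν => c a (F μ ν)) i *
      (fun a => Λ.two fun μ ν => c a (F μ ν)) j =
      (fun a => Λ.two fun μ ν => c a (F μ ν)) j * (fun a => Λ.two fun μ ν => c a (F μ ν)) i :=
    fun i j => E2 _ (E3 _) _ (E3 _)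
  unfold PF at h0
  rw [← MvPolynomial.C_0, bia_evc_C hEV _ hcm, map_zero, bia_evc_sum hEV _ hcm] at h0
  rw [← h0]
  refine Finset.sum_congr rfl fun a _ => ?_
  rw [bia_evc_mul hEV _ hcm, bia_evc_X hEV _ hcm]
  congr 1
  · unfold PF
    obtain ⟨Φ, h1, h2, -⟩ := hEV _ _ _ hcm
    obtain ⟨Ψ, k1, k2, -⟩ := hEV _ _ _ hcm1
    rw [← h1, ← k1]
    have : Ψ = Φ.comp (MvPolynomial.rename (Fin.castAdd q)) := by
      refine MvPolynomial.algHom_ext fun i => ?_
      rw [AlgHom.comp_apply, MvPolynomial.rename_X, h2, k2]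
      simp only [hc1]
    rw [this]
    rfl
  · simp only [hc2]

theorem bia_pd_clm {V W : Type*} [NormedAddCommGroup V] [NormedSpace ℝ V]
    [NormedAddCommGroup W] [NormedSpace ℝ W] (T : V →L[ℝ] W) {g : (ι → ℝ) → V} {x : ι → ℝ}
    (hg : DifferentiableAt ℝ g x) (μ : ι) : pd (fun y => T (g y)) x μ = T (pd g x μ) := by
  unfold pd
  have h := (T.hasFDerivAt.comp x hg.hasFDerivAt).fderiv
  have h' : fderiv ℝ (fun y => T (g y)) x = _ := h
  rw [h']
  rfl

theorem bia_pd_mem {n : ℕ} (f : Submodule ℝ (M n)) {g : (ι → ℝ) → M n} {x : ι → ℝ}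
    (hg : DifferentiableAt ℝ g x) (hf : ∀ y, g y ∈ f) (μ : ι) : pd g x μ ∈ f := by
  obtain ⟨T, hT⟩ : ∃ T : M n →ₗ[ℝ] M n, LinearMap.ker T = f := by
    obtain ⟨g', hg'⟩ := f.exists_isCompl
    refine ⟨g'.subtype ∘ₗ g'.projectionOnto f hg'.symm, ?_⟩
    rw [LinearMap.ker_comp_of_ker_eq_bot _ g'.ker_subtype, Submodule.ker_projectionOnto]
  have h1 := bia_pd_clm (LinearMap.toContinuousLinearMap T) hg μ
  have h2 : (fun y => (LinearMap.toContinuousLinearMap T) (g y)) = fun _ => (0 : M n) := by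
    funext y
    have : g y ∈ LinearMap.ker T := by rw [hT]; exact hf y
    exact this
  rw [h2] at h1
  have h3 : pd (fun _ : ι → ℝ => (0 : M n)) x μ = 0 := by
    unfold pd
    simp
  rw [h3] at h1
  rw [← hT]
  exact h1.symm

theorem bia_pd_symm {W : Type*} [NormedAddCommGroup W] [NormedSpace ℝ W]
    {g : (ι → ℝ) → W} (hg : ContDiff ℝ (⊤ : ℕ∞) g) (x : ι → ℝ) (μ ν : ι) :
    pd (fun y => pd g y μ) x ν = pd (fun y => pd g y ν) x μ := by
  have hs : IsSymmSndFDerivAt ℝ g x := by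
    refine (hg.contDiffAt (x := x)).isSymmSndFDerivAt ?_
    simp only [minSmoothness_of_isRCLikeNormedField]
    have h2 : ((2 : ℕ∞) : WithTop ℕ∞) ≤ ((⊤ : ℕ∞) : WithTop ℕ∞) := WithTop.coe_le_coe.2 le_top
    exact h2
  have hd : DifferentiableAt ℝ (fderiv ℝ g) x := by
    have : ContDiff ℝ (⊤ : ℕ∞) (fderiv ℝ g) := hg.fderiv_right (by simp)
    exact this.differentiable (by simp) x
  have h : ∀ μ ν : ι, pd (fun y => pd g y μ) x ν =
      fderiv ℝ (fderiv ℝ g) x (Pi.single ν 1) (Pi.single μ 1) := by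
    intro μ ν
    unfold pd
    have h1 := (hd.hasFDerivAt.clm_apply (hasFDerivAt_const (Pi.single μ (1 : ℝ)) x)).fderiv
    rw [h1]
    simp
  rw [h, h]
  exact hs _ _

/-- (4.1) -/
theorem st_BIA (hEV : ST_EV) (hEVEN : ST_EVEN) (hEQP : ST_EQP) : ST_BIA := by
  intro ι _ _ Λ n q c P f hbr hP A hA hAf
  obtain ⟨E1, E2, E3⟩ := hEVEN ι Λ
  have htop : ((⊤ : ℕ∞) : WithTop ℕ∞) + 1 ≤ ((⊤ : ℕ∞) : WithTop ℕ∞) := by simp
  have hpd : ∀ {W : Type} [NormedAddCommGroup W] [NormedSpace ℝ W] (g : (ι → ℝ) → W),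
      ContDiff ℝ (⊤ : ℕ∞) g → ∀ μ, ContDiff ℝ (⊤ : ℕ∞) (fun x => pd g x μ) := by
    intro W _ _ g hg μ
    unfold pd
    exact (hg.fderiv_right htop).clm_apply contDiff_const
  have hFs : ∀ μ ν, ContDiff ℝ (⊤ : ℕ∞) (fun x => Fsm A x μ ν) := by
    intro μ ν
    unfold Fsm
    exact ((hpd _ (hA ν) μ).sub (hpd _ (hA μ) ν)).add
      (((hA μ).mul (hA ν)).sub ((hA ν).mul (hA μ)))
  have hAd : ∀ μ x, DifferentiableAt ℝ (A μ) x := fun μ x => (hA μ).differentiable (by simp) x
  have hpdd : ∀ μ ν x, DifferentiableAt ℝ (fun y => pd (A ν) y μ) x :=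
    fun μ ν x => (hpd _ (hA ν) μ).differentiable (by simp) x
  have hpdf : ∀ x μ ν, pd (A ν) x μ ∈ f := fun x μ ν => bia_pd_mem f (hAd ν x) (hAf ν) μ
  have hFf : ∀ x μ ν, Fsm A x μ ν ∈ f := by
    intro x μ ν
    unfold Fsm
    exact f.add_mem (f.sub_mem (hpdf x μ ν) (hpdf x ν μ)) (hbr _ (hAf μ x) _ (hAf ν x))
  -- the functions
  let F : Fin q → (ι → ℝ) → (Λ.X →L[ℝ] Λ.X) := fun a y => Λ.two fun μ ν => c a (Fsm A y μ ν)
  let T : Fin q → ((ι → ι → M n) →ₗ[ℝ] (Λ.X →L[ℝ] Λ.X)) := fun a =>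
    { toFun := fun G => Λ.two fun μ ν => c a (G μ ν)
      map_add' := by
        intro G G'
        unfold Ext.two
        simp only [Pi.add_apply, map_add, add_smul, Finset.sum_add_distrib, smul_add]
      map_smul' := by
        intro r G
        unfold Ext.two
        simp only [Pi.smul_apply, map_smul, smul_eq_mul, mul_smul, ← Finset.smul_sum,
          RingHom.id_apply]
        rw [smul_comm] }
  have hFT : ∀ a y, F a y = LinearMap.toContinuousLinearMap (T a) (Fsm A y) := fun a y => rfl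
  have hFsm : ContDiff ℝ (⊤ : ℕ∞) (fun y => Fsm A y) := by
    rw [contDiff_pi]
    intro μ
    rw [contDiff_pi]
    intro ν
    exact hFs μ ν
  have hFc : ∀ a, ContDiff ℝ (⊤ : ℕ∞) (F a) := by
    intro a
    have : F a = fun y => LinearMap.toContinuousLinearMap (T a) (Fsm A y) := funext (hFT a)
    rw [this]
    exact (ContinuousLinearMap.contDiff _).comp hFsm
  have hdF : ∀ a x l, pd (F a) x l =
      Λ.two fun μ ν => c a (pd (fun y => Fsm A y μ ν) x l) := by
    intro a x l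
    have h1 : F a = fun y => LinearMap.toContinuousLinearMap (T a) (Fsm A y) := funext (hFT a)
    have hd : DifferentiableAt ℝ (fun y => Fsm A y) x := hFsm.differentiable (by simp) x
    rw [h1, bia_pd_clm _ hd]
    have h2 : ∀ μ ν, pd (fun y => Fsm A y) x l μ ν = pd (fun y => Fsm A y μ ν) x l := by
      intro μ ν
      have h3 := bia_pd_clm ((ContinuousLinearMap.proj (R := ℝ) (φ := fun _ : ι => M n) ν).comp
        (ContinuousLinearMap.proj (R := ℝ) (φ := fun _ : ι => ι → M n) μ)) hd l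
      exact h3.symm
    change (Λ.two fun μ ν => c a (pd (fun y => Fsm A y) x l μ ν)) = _
    simp only [h2]
  have hdF2 : ∀ x l m k, pd (fun y => Fsm A y m k) x l =
      pd (fun y => pd (A k) y m) x l - pd (fun y => pd (A m) y k) x l +
      (pd (A m) x l * A k x + A m x * pd (A k) x l - (pd (A k) x l * A m x + A k x * pd (A m) x l)) := by
    intro x l m k
    have d3 : DifferentiableAt ℝ (fun y => A m y * A k y) x := (hAd m x).mul (hAd k x)
    have d4 : DifferentiableAt ℝ (fun y => A k y * A m y) x := (hAd k x).mul (hAd m x)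
    have e : (fun y => Fsm A y m k) = fun y => (pd (A k) y m - pd (A m) y k) +
        (A m y * A k y - A k y * A m y) := rfl
    have d1 : DifferentiableAt ℝ (fun y => pd (A k) y m - pd (A m) y k) x :=
      (hpdd m k x).sub (hpdd k m x)
    have d2 : DifferentiableAt ℝ (fun y => A m y * A k y - A k y * A m y) x := d3.sub d4
    rw [e, bia_pd_add d1 d2, bia_pd_sub (hpdd m k x) (hpdd k m x), bia_pd_sub d3 d4, bia_pd_mul (hAd m x) (hAd k x),
      bia_pd_mul (hAd k x) (hAd m x)]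
    abel
  obtain ⟨C1, C2⟩ := bia_chain hEV hEVEN Λ F (fun a y => E3 _) hFc P
  refine ⟨C1, fun x => ?_⟩
  have C3 := C2 x
  have hD : ∀ a, bia_D Λ (F a) x = -∑ l, Λ.e l * Λ.two (fun μ ν =>
      c a (A l x * Fsm A x μ ν - Fsm A x μ ν * A l x)) := by
    intro a
    unfold bia_D
    simp only [hdF, hdF2]
    rw [bia_W_two, bia_W_two, bia_alg Λ (c a) (fun m => A m x) (fun l m => pd (A m) x l)
      (fun l m k => pd (fun y => pd (A k) y m) x l) (fun l m k => bia_pd_symm (hA k) x m l),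
      smul_neg]
    rfl
  change bia_D Λ (fun y => evc (fun a => F a y) P) x = 0
  rw [C3]
  simp only [hD]
  have h1 : ∀ a, evc (fun a => F a x) (MvPolynomial.pderiv a P) *
      (-∑ l, Λ.e l * Λ.two (fun μ ν => c a (A l x * Fsm A x μ ν - Fsm A x μ ν * A l x))) =
      -∑ l, Λ.e l * (PF Λ c (MvPolynomial.pderiv a P) (Fsm A x) *
        Λ.two (fun μ ν => c a (A l x * Fsm A x μ ν - Fsm A x μ ν * A l x))) := by
    intro a
    rw [mul_neg, Finset.mul_sum]
    congr 1
    refine Finset.sum_congr rfl fun l _ => ?_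
    rw [← mul_assoc, ← mul_assoc]
    congr 1
    refine E1 _ ?_ l
    exact bia_evc_ev hEV Λ _ (fun i j => E2 _ (E3 _) _ (E3 _)) (fun i => E3 _) _
  simp only [h1]
  rw [Finset.sum_neg_distrib, Finset.sum_comm, neg_eq_zero]
  refine Finset.sum_eq_zero fun l _ => ?_
  rw [← Finset.mul_sum, bia_form hEV hEVEN hEQP Λ f c P hP (A l x) (hAf l x) (Fsm A x) (hFf x),
    mul_zero]

end bia

end Pool.Agent.Helper83.CB
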